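import Pool.Agent.H2.UnivDefs
import Pool.Agent.H2.PD6

open MvPolynomial Pool.Agent.Lead.POG Pool.Agent.H2.Pdim Pool.Agent.H2.Univ

namespace Pool.Agent.Results.MP_63137b_co.NotLocal

variable {K : Type} [Field K]

lemma der_lin {l : ℕ} (θ : Derivation K (MvPolynomial (Fin l) K) (MvPolynomial (Fin l) K))
    (a : Fin l → K) : θ (lin a) = ∑ i, C (a i) * θ (X i) := by
  simp [lin, map_sum]

lemma der_exp {l : ℕ} (θ : Derivation K (MvPolynomial (Fin l) K) (MvPolynomial (Fin l) K))
    (f : MvPolynomial (Fin l) K) : θ f = ∑ k, θ (X k) * pderiv k f := by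
  classical
  induction f using MvPolynomial.induction_on with
  | C a => simp
  | add p q hp hq => simp [hp, hq, mul_add, Finset.sum_add_distrib]
  | mul_X p j hp =>
    simp only [Derivation.leibniz, hp, smul_eq_mul, mul_add, Finset.sum_add_distrib, pderiv_X,
      Pi.single_apply, Finset.mul_sum]
    congr 1
    · simp [mul_comm]
    · exact Finset.sum_congr rfl fun k _ => by ring

/-- the braid arrangement -/
def bz : Fin 6 → Fin 3 → ℤ :=
  ![![1, 0, 0], ![0, 1, 0], ![0, 0, 1], ![1, -1, 0], ![1, 0, -1], ![0, 1, -1]]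

theorem result (K : Type) [Field K] [CharZero K] :
    ∃ (a : Fin 6 → Fin 3 → K) (μ : Fin 6 → ℕ) (Y : Submodule K (Fin 3 → K)),
      IsArr a ∧ (∀ j, 1 ≤ μ j) ∧ Y ∈ lattice a ∧ (∃ θ, IsUniversal a μ θ) ∧
      (∃ (b : Fin 2 → Fin 2 → K) (ν : Fin 2 → ℕ), IsLocalizationAt a μ Y b ν) ∧
      ∀ (r e : ℕ) (b : Fin e → Fin r → K) (ν : Fin e → ℕ), IsLocalizationAt a μ Y b ν →
        ¬ ∃ θ, IsUniversal b ν θ := by
  have hY : ∀ v : Fin 3 → K, v ∈ hyp (cst K (bz 0)) ⊓ hyp (cst K (bz 5)) ↔
      v 0 = 0 ∧ v 1 = v 2 := by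
    intro v
    simp [mem_hyp3, cst, bz, add_neg_eq_zero]
  have hle : ∀ j, hyp (cst K (bz 0)) ⊓ hyp (cst K (bz 5)) ≤ hyp (cst K (bz j)) ↔ j = 0 ∨ j = 5 := by
    intro j
    constructor
    · intro h
      have := h ((hY ![0, 1, 1]).2 (by simp))
      rw [mem_hyp3] at this
      fin_cases j <;> simp [cst, bz] at this ⊢
    · rintro (rfl | rfl)
      · exact inf_le_left
      · exact inf_le_right
  refine ⟨fun j => cst K (bz j), ![2, 2, 2, 1, 1, 1], hyp (cst K (bz 0)) ⊓ hyp (cst K (bz 5)),
    ⟨fun j => cst_ne_zero _ (by revert j; decide), fun i j h => ?_⟩, by decide, ?_, ?_, ?_, ?_⟩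
  · have := cross_cst _ _ (eq_of_hyp_le _ _ (le_of_eq h))
    revert i j
    have : ∀ i j, cross (bz i) (bz j) = 0 → i = j := by decide +kernel
    exact fun i j _ h => this i j h
  · refine ⟨{hyp (cst K (bz 0)), hyp (cst K (bz 5))}, ?_, by simp⟩
    rintro H (rfl | rfl)
    exacts [⟨0, rfl⟩, ⟨5, rfl⟩]
  · have h2 : (C (2 : K)⁻¹ : MvPolynomial (Fin 3) K) * 2 = 1 := by
      rw [← map_ofNat C 2, ← map_mul, inv_mul_cancel₀ (by norm_num), map_one]
    have hn : ∀ (φ : Derivation K (MvPolynomial (Fin 3) K) (MvPolynomial (Fin 3) K)) i,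
        nabla φ (mkDerivation K fun i => X i ^ 2) (X i) = 2 * X i * φ (X i) := by
      intro φ i
      simp [nabla, mkDerivation_X, mul_assoc]
    refine ⟨mkDerivation K fun i => X i ^ 2, ⟨2, fun i => ?_⟩, fun j => ?_, fun φ _ j => ?_,
      fun φ _ ψ _ h => ?_, fun ψ hψ => ?_⟩
    · rw [mkDerivation_X]; exact isHomogeneous_X_pow i 2
    · rw [der_lin, lin3]
      fin_cases j <;> simp [mkDerivation_X, Fin.sum_univ_three, cst, bz]
      · exact ⟨X 0 + X 1, by ring⟩
      · exact ⟨X 0 + X 2, by ring⟩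
      · exact ⟨X 1 + X 2, by ring⟩
    · rw [der_lin, lin3]
      fin_cases j <;> simp [hn, Fin.sum_univ_three, cst, bz]
      · exact ⟨2 * φ (X 0), by ring⟩
      · exact ⟨2 * φ (X 1), by ring⟩
      · exact ⟨2 * φ (X 2), by ring⟩
    · refine derivation_ext fun i => ?_
      have := congrArg (fun η => η (X i)) h
      simp only [hn] at this
      exact mul_left_cancel₀ (mul_ne_zero two_ne_zero (X_ne_zero i)) this
    · have h : ∀ i : Fin 3, X i ∣ ψ (X i) := by
        intro i
        fin_cases i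
        · simpa [lin3, cst, bz] using hψ 0
        · simpa [lin3, cst, bz] using hψ 1
        · simpa [lin3, cst, bz] using hψ 2
      have h' : ∀ i : Fin 3, ∃ g, ψ (X i) = X i * g := h
      choose g hg using h'
      refine ⟨mkDerivation K fun i => C (2 : K)⁻¹ * g i, trivial, derivation_ext fun i => ?_⟩
      rw [hn, mkDerivation_X, hg]
      linear_combination (X i * g i) * h2
  · refine ⟨![![1, 0], ![0, 1]], ![2, 1], (!![1, 0, 0; 0, 1, -1] : Matrix _ _ K).mulVecLin,
      ![0, 5], fun w => ⟨![w 0, w 1, 0], ?_⟩, ?_, by decide, ?_, ?_, by decide⟩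
    · ext i; fin_cases i <;> simp [Matrix.mulVec, dotProduct, Fin.sum_univ_three]
    · ext v
      rw [hY, LinearMap.mem_ker, _root_.funext_iff]
      simp [Fin.forall_fin_two, Matrix.mulVec, dotProduct, Fin.sum_univ_three, add_neg_eq_zero]
    · ext j
      simp only [Set.mem_setOf_eq, hle]
      revert j; decide
    · intro j v
      fin_cases j <;> simp [Matrix.mulVec, dotProduct, Fin.sum_univ_three, cst, bz]
  · rintro r e b ν ⟨π, ι, hπ, hker, hι, hr, hb, hν⟩ ⟨θ, ⟨n, hn⟩, hθ, -, -, hs⟩
    have hj : ∀ j, ι j = 0 ∨ ι j = 5 := fun j => (hle _).1 (hr ▸ Set.mem_range_self j : ι j ∈ _)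
    obtain ⟨j0, hj0⟩ : 0 ∈ Set.range ι := by rw [hr]; exact (hle 0).2 (Or.inl rfl)
    by_cases h2 : 2 ≤ n
    · obtain ⟨φ, -, hφ⟩ := hs (a := mkDerivation K fun i => C (π ![0, 1, 0] i)) (by
        intro j
        rcases hj j with h | h
        · rw [der_lin]
          simp only [mkDerivation_X, ← map_mul, ← map_sum, hb, h]
          simp [Fin.sum_univ_three, cst, bz]
        · simp [hν, h])
      have : π ![0, 1, 0] = 0 := by
        funext i
        have h3 := congrArg (fun η => constantCoeff (η (X i))) hφ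
        simp only [nabla, mkDerivation_X, constantCoeff_C] at h3
        rw [← h3, der_exp, map_sum]
        refine Finset.sum_eq_zero fun k _ => ?_
        have : constantCoeff (pderiv k (θ (X i))) = 0 :=
          (hn i).pderiv.coeff_eq_zero (by simp; omega)
        rw [map_mul, this, mul_zero]
      have h4 := (hY _).1 (hker ▸ LinearMap.mem_ker.2 this)
      simp at h4
    · have hb0 : b j0 ≠ 0 := by
        intro h
        have := hb j0 ![1, 0, 0]
        simp [h, hj0, Fin.sum_univ_three, cst, bz] at this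
      have hz : θ (lin (b j0)) = 0 := by
        by_contra hne
        have h5 := hθ j0
        rw [hν, hj0] at h5
        have hh : (θ (lin (b j0))).IsHomogeneous n := by
          rw [der_lin]
          exact IsHomogeneous.sum _ _ _ fun i _ => by simpa using (isHomogeneous_C _ _).mul (hn i)
        have h6 := totalDegree_le_of_dvd_of_isDomain h5 hne
        rw [hh.totalDegree hne, ((isHomogeneous_lin (b j0)).pow _).totalDegree
          (pow_ne_zero _ (lin_ne_zero _ hb0))] at h6
        simp at h6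
        omega
      have hE : ∀ j, mkDerivation K (X : Fin r → MvPolynomial (Fin r) K) (lin (b j)) =
          lin (b j) := by
        intro j
        rw [der_lin]; simp [lin, mkDerivation_X]
      obtain ⟨φ, -, hφ⟩ := hs (a := mkDerivation K X) (by
        intro j
        rw [hE]
        rcases hj j with h | h <;> simp [hν, h])
      have h7 := congrArg (fun η => η (lin (b j0))) hφ
      simp only [hE] at h7
      have h8 : nabla φ θ (lin (b j0)) = φ (θ (lin (b j0))) := by
        rw [der_lin, der_lin θ, map_sum]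
        simp [nabla, mkDerivation_X]
      rw [h8, hz, map_zero] at h7
      exact lin_ne_zero _ hb0 h7.symm

end Pool.Agent.Results.MP_63137b_co.NotLocal
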